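import Pool.Agent.Y444.RP.Stm

/-!
# RP-NOT: the product with the Sorgenfrey line is not hereditarily metacompact (helper550)
-/

set_option autoImplicit false

open Set TopologicalSpace

namespace Pool.Agent.Y550.RP

open Pool.Agent.Helper332.NB Pool.Agent.Y444.RP

/-- a point of the product -/
def pr (x : ℝ) (B : RW) : Sorg × RW := (x, B)

/-- the sets of the cover -/
def UU (A : RW) : Set (Sorg × RW) := {p | A.le p.2 ∧ @LE.le ℝ _ A.f p.1}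

lemma UU_open (hB : BasisStm) (hL : LimStm) (hT : TopStm) (A : RW) : IsOpen (UU A) := by
  obtain ⟨htr, hrf, -⟩ := hL
  have h1 : IsOpen {x : Sorg | @LE.le ℝ _ A.f x} := by
    rw [isOpen_iff_forall_mem_open]
    intro x hx
    refine ⟨(Ico A.f ((show ℝ from x) + 1) : Set ℝ), fun y hy => hy.1,
      hB.isOpen ⟨A.f, (show ℝ from x) + 1, rfl⟩, ?_⟩
    exact ⟨hx, lt_add_one (show ℝ from x)⟩
  have h2 : IsOpen {B : RW | A.le B} := by
    rw [isOpen_iff_forall_mem_open]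
    intro B hBA
    refine ⟨B.N 0, fun C hC => htr _ _ _ hBA hC.1, hT.2.1.isOpen ⟨B, 0, rfl⟩, hrf B, Or.inl rfl⟩
  have h3 : UU A = {x : Sorg | @LE.le ℝ _ A.f x} ×ˢ {B : RW | A.le B} := by
    ext p
    exact ⟨fun h => ⟨h.2, h.1⟩, fun h => ⟨h.2, h.1⟩⟩
  rw [h3]
  exact h1.prod h2

lemma exists_RW : ∃ _ : RW, True := by
  refine ⟨⟨{0}, fun S hS hne => ?_, 0, rfl, fun y hy => ?_⟩, trivial⟩
  · obtain ⟨s, hs⟩ := hne
    have h0 : s = 0 := hS hs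
    subst h0
    exact ⟨0, hs, fun y hy => le_of_eq (hS hy)⟩
  · exact le_of_eq (Eq.symm hy)

/-- the neighbourhoods of the special points -/
lemma nbhd (hB : BasisStm) (hL : LimStm) (hT : TopStm) (A : RW) (V : Set Z) (hV : IsOpen V)
    (h : pr A.f A ∈ Z) (hA : (⟨pr A.f A, h⟩ : Z) ∈ V) :
    ∃ (e : ℝ) (n : ℕ), 0 < e ∧ ∀ (B : RW) (x : ℝ), B ∈ A.N n → A.f ≤ x → x < A.f + e →
      ∀ hx : pr x B ∈ Z, (⟨pr x B, hx⟩ : Z) ∈ V := by
  obtain ⟨htr, hrf, -⟩ := hL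
  obtain ⟨O, hO, rfl⟩ := isOpen_induced_iff.1 hV
  obtain ⟨u, v, hu, hv, hAu, hAv, huv⟩ := isOpen_prod_iff.1 hO A.f A hA
  obtain ⟨_, ⟨a, b, rfl⟩, hab, habu⟩ := hB.exists_subset_of_mem_open hAu hu
  obtain ⟨_, ⟨C, n, rfl⟩, hC, hCv⟩ := hT.2.1.exists_subset_of_mem_open hAv hv
  have hab1 : a ≤ A.f := hab.1
  have hab2 : A.f < b := hab.2
  obtain ⟨n', hn'⟩ : ∃ n', A.N n' ⊆ C.N n := by
    obtain ⟨hC1, hC2⟩ := hC
    rcases hC2 with rfl | ⟨b', hb', hb1, hb2⟩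
    · exact ⟨n, subset_rfl⟩
    · refine ⟨0, fun B hBA => ⟨htr _ _ _ hC1 hBA.1, Or.inr ⟨b', ?_, hb1, hb2⟩⟩⟩
      have h3 : A.1 = B.1 ∩ Ici A.f := hBA.1
      rw [h3] at hb'
      exact hb'.1
  refine ⟨b - A.f, n', sub_pos.2 hab2, fun B x hBN hx1 hx2 hx => ?_⟩
  refine huv ⟨habu ?_, hCv (hn' hBN)⟩
  exact ⟨hab1.trans hx1, (by linarith : x < b)⟩

/-- the claim: a place where the neighbourhoods are large somewhere everywhere -/
lemma claim (hL : LimStm) (e : RW → ℝ) (n : RW → ℕ) (he : ∀ A, 0 < e A) :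
    ∃ (m : ℕ) (A : RW) (c : ℝ), c < A.f ∧ ∀ A' : RW, A.le A' → c < A'.f → ∀ c', c ≤ c' →
      c' < A'.f → ∃ B : RW, A'.le B ∧ c' < B.f ∧ 1 / ((m : ℝ) + 1) < e B ∧ n B ≤ m := by
  by_contra hcon
  push Not at hcon
  obtain ⟨htr, hrf, hmono, hanti, hins, hlim⟩ := hL
  have hstep : ∀ (m : ℕ) (s : {p : RW × ℝ // p.2 < p.1.f}), ∃ t : {p : RW × ℝ // p.2 < p.1.f},
      s.1.1.le t.1.1 ∧ s.1.2 < t.1.2 ∧ ∀ B : RW, t.1.1.le B → t.1.2 < B.f →
        1 / ((m : ℝ) + 1) < e B → m < n B := by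
    intro m s
    have hs := s.2
    obtain ⟨A', h1, h2, c', h3, h4, h5⟩ := hcon m s.1.1 ((s.1.2 + s.1.1.f) / 2) (by linarith)
    exact ⟨⟨(A', c'), h4⟩, h1, by
      show s.1.2 < c'
      linarith, h5⟩
  choose st hst1 hst2 hst3 using hstep
  obtain ⟨A₀, -⟩ := exists_RW
  let s : ℕ → {p : RW × ℝ // p.2 < p.1.f} := fun k => Nat.rec
    (⟨(A₀, A₀.f - 1), by show A₀.f - 1 < A₀.f; linarith⟩ : {p : RW × ℝ // p.2 < p.1.f})
    (fun m t => st m t) k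
  have hs : ∀ m, s (m + 1) = st m (s m) := fun m => rfl
  have h1 : ∀ m, (s m).1.1.le (s (m + 1)).1.1 := fun m => by
    rw [hs m]
    exact hst1 m (s m)
  have h2 : ∀ m, (s m).1.2 < (s (m + 1)).1.2 := fun m => by
    rw [hs m]
    exact hst2 m (s m)
  have h3 : ∀ m, ∀ B : RW, (s (m + 1)).1.1.le B → (s (m + 1)).1.2 < B.f →
      1 / ((m : ℝ) + 1) < e B → m < n B := fun m => by
    rw [hs m]
    exact hst3 m (s m)
  have hcm : StrictMono fun m => (s m).1.2 := strictMono_nat_of_lt_succ h2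
  have hfa : Antitone fun m => (s m).1.1.f := antitone_nat_of_succ_le fun m => hmono _ _ (h1 m)
  have hcf : ∀ m l, (s m).1.2 ≤ (s l).1.1.f := by
    intro m l
    have h4 : (s m).1.2 ≤ (s (max m l)).1.2 := hcm.monotone (le_max_left m l)
    have h5 : (s (max m l)).1.1.f ≤ (s l).1.1.f := hfa (le_max_right m l)
    have h6 := (s (max m l)).2
    linarith
  have hbdd : BddAbove (range fun m => (s m).1.2) :=
    ⟨(s 0).1.1.f, by rintro _ ⟨m, rfl⟩; exact hcf m 0⟩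
  obtain ⟨Aw, hA1, hA2⟩ := hlim (fun m => (s m).1.1) (⨆ m, (s m).1.2) h1
    (fun l => ciSup_le fun m => hcf m l)
  have hsup : ∀ m, (s m).1.2 ≤ ⨆ m, (s m).1.2 := fun m => le_ciSup hbdd m
  obtain ⟨m₀, hm₀⟩ := exists_nat_one_div_lt (he Aw)
  have h7 : m₀ ≤ max m₀ (n Aw) := le_max_left _ _
  have h8 : (1 : ℝ) / ((max m₀ (n Aw) : ℕ) + 1) ≤ 1 / ((m₀ : ℝ) + 1) := by
    apply one_div_le_one_div_of_le (by positivity)
    have h9 : (m₀ : ℝ) ≤ ((max m₀ (n Aw) : ℕ) : ℝ) := by exact_mod_cast h7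
    linarith
  have h10 := h3 (max m₀ (n Aw)) Aw (hA1 (max m₀ (n Aw) + 1)) ?_ (h8.trans_lt hm₀)
  · exact absurd (le_max_right m₀ (n Aw)) (not_le.2 h10)
  · have h11 := h2 (max m₀ (n Aw) + 1)
    have h12 := hsup (max m₀ (n Aw) + 1 + 1)
    linarith

theorem t : BasisStm → LimStm → TopStm → NotStm := by
  intro hB hL hT
  have hL' := hL
  obtain ⟨htr, hrf, hmono, hanti, hins, hlim⟩ := hL'
  have hUZ : ∀ A : RW, UU A ⊆ Z := fun A p hp => (hmono _ _ hp.1).trans hp.2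
  have hself : ∀ A : RW, pr A.f A ∈ Z := fun A => le_refl A.f
  refine ⟨?_, fun hM => ?_⟩
  · have h1 : Z = ⋃ A : RW, UU A := by
      ext p
      constructor
      · intro hp
        exact mem_iUnion.2 ⟨p.2, hrf _, hp⟩
      · intro hp
        obtain ⟨A, hA⟩ := mem_iUnion.1 hp
        exact hUZ A hA
    rw [h1]
    exact isOpen_iUnion fun A => UU_open hB hL hT A
  -- a point-finite refinement
  obtain ⟨𝒱, h1, h2, h3, h4⟩ := hM (range fun A : RW => (Subtype.val ⁻¹' UU A : Set Z))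
    (by
      rintro _ ⟨A, rfl⟩
      exact (UU_open hB hL hT A).preimage continuous_subtype_val)
    (by
      rw [eq_univ_iff_forall]
      intro p
      exact ⟨_, ⟨p.1.2, rfl⟩, hrf _, p.2⟩)
  have hV : ∀ A : RW, ∃ V ∈ 𝒱, (⟨pr A.f A, hself A⟩ : Z) ∈ V := by
    intro A
    have h5 : (⟨pr A.f A, hself A⟩ : Z) ∈ ⋃₀ 𝒱 := by
      rw [h3]
      exact mem_univ _
    exact h5
  choose V hV1 hV2 using hV
  have hVU : ∀ A : RW, V A ⊆ (Subtype.val ⁻¹' UU A : Set Z) := by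
    intro A
    obtain ⟨_, ⟨A', rfl⟩, hA'⟩ := h2 (V A) (hV1 A)
    have h5 : A'.le A ∧ A'.f ≤ A.f := hA' (hV2 A)
    have h6 : A' = A := hanti _ _ h5.1 h5.2
    rw [← h6]
    rw [h6] at hA' ⊢
    exact hA'
  have hVinj : Function.Injective V := by
    intro A B hAB
    have h5 := hV2 A
    rw [hAB] at h5
    have h6 : B.le A ∧ B.f ≤ A.f := hVU B h5
    exact (hanti _ _ h6.1 h6.2).symm
  choose e n he hn using fun A : RW => nbhd hB hL hT A (V A) (h1 _ (hV1 A)) (hself A) (hV2 A)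
  obtain ⟨m, A, c₀, hc₀, hcl⟩ := claim hL e n he
  have hm0 : (0 : ℝ) < 1 / ((m : ℝ) + 1) := by positivity
  obtain ⟨c, hc1, hc2, hc3⟩ : ∃ c : ℝ, c < A.f ∧ A.f ≤ c + 1 / ((m : ℝ) + 1) ∧
      ∀ A' : RW, A.le A' → c < A'.f →
        ∃ B : RW, A'.le B ∧ c < B.f ∧ 1 / ((m : ℝ) + 1) < e B ∧ n B ≤ m := by
    refine ⟨max c₀ (A.f - 1 / ((m : ℝ) + 1)), max_lt hc₀ (by linarith), ?_, fun A' hA' hcA' => ?_⟩
    · have := le_max_right c₀ (A.f - 1 / ((m : ℝ) + 1))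
      linarith
    · exact hcl A' hA' ((le_max_left _ _).trans_lt hcA') _ (le_max_left _ _) hcA'
  -- the sequence
  have hstep : ∀ s : {B : RW // A.le B ∧ c < B.f ∧ 1 / ((m : ℝ) + 1) < e B ∧ n B ≤ m},
      ∃ t : {B : RW // A.le B ∧ c < B.f ∧ 1 / ((m : ℝ) + 1) < e B ∧ n B ≤ m},
        s.1.le t.1 ∧ t.1.f < s.1.f ∧
          ∃ b ∈ t.1.1, s.1.f - 1 / ((m : ℝ) + 1) < b ∧ b < s.1.f := by
    rintro ⟨B, hB1, hB2, hB3, hB4⟩
    obtain ⟨b, hb1, hb2⟩ := exists_between (max_lt hB2 (by linarith :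
      B.f - 1 / ((m : ℝ) + 1) < B.f))
    obtain ⟨B', k1, k2, k3⟩ := hins B b hb2
    obtain ⟨B'', l1, l2, l3, l4⟩ := hc3 B' (htr _ _ _ hB1 k1)
      (by rw [k3]; exact (le_max_left _ _).trans_lt hb1)
    refine ⟨⟨B'', htr _ _ _ (htr _ _ _ hB1 k1) l1, l2, l3, l4⟩, htr _ _ _ k1 l1, ?_, b, ?_,
      (le_max_right _ _).trans_lt hb1, hb2⟩
    · have h5 := hmono _ _ l1
      rw [k3] at h5
      exact h5.trans_lt hb2
    · have h5 : b ∈ B'.1 := by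
        rw [k2]
        exact mem_insert _ _
      have h6 : B'.1 = B''.1 ∩ Ici B'.f := l1
      rw [h6] at h5
      exact h5.1
  choose st hst1 hst2 hst3 using hstep
  obtain ⟨B₀, b1, b2, b3, b4⟩ := hc3 A (hrf A) hc1
  let s : ℕ → {B : RW // A.le B ∧ c < B.f ∧ 1 / ((m : ℝ) + 1) < e B ∧ n B ≤ m} :=
    fun k => Nat.rec ⟨B₀, b1, b2, b3, b4⟩ (fun _ t => st t) k
  have hs : ∀ k, s (k + 1) = st (s k) := fun k => rfl
  have hs1 : ∀ k, (s k).1.le (s (k + 1)).1 := fun k => by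
    rw [hs k]
    exact hst1 (s k)
  have hs2 : ∀ k, (s (k + 1)).1.f < (s k).1.f := fun k => by
    rw [hs k]
    exact hst2 (s k)
  have hs3 : ∀ k, ∃ b ∈ (s (k + 1)).1.1, (s k).1.f - 1 / ((m : ℝ) + 1) < b ∧ b < (s k).1.f :=
    fun k => by
      rw [hs k]
      exact hst3 (s k)
  have hsa : StrictAnti fun k => (s k).1.f := strictAnti_nat_of_succ_lt hs2
  obtain ⟨u, hu1, hu2⟩ := hlim (fun k => (s k).1) c hs1 (fun k => (s k).2.2.1.le)
  have hz : pr (s 0).1.f u ∈ Z := hmono _ _ (hu1 0)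
  have hmem : ∀ k, (⟨pr (s 0).1.f u, hz⟩ : Z) ∈ V (s k).1 := by
    intro k
    refine hn (s k).1 u (s 0).1.f ⟨hu1 k, Or.inr ?_⟩ (hsa.antitone (Nat.zero_le k)) ?_ hz
    · obtain ⟨b, hb, hb1, hb2⟩ := hs3 k
      refine ⟨b, ?_, ?_, hb2⟩
      · have h6 : (s (k + 1)).1.1 = u.1 ∩ Ici (s (k + 1)).1.f := hu1 (k + 1)
        rw [h6] at hb
        exact hb.1
      · have h7 : (1 : ℝ) / ((m : ℝ) + 1) ≤ 1 / ((n (s k).1 : ℝ) + 1) := by
          apply one_div_le_one_div_of_le (by positivity)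
          have h8 : ((n (s k).1 : ℕ) : ℝ) ≤ (m : ℝ) := by exact_mod_cast (s k).2.2.2.2
          linarith
        linarith
    · have h5 := hmono _ _ (s 0).2.1
      have h6 := (s k).2.2.1
      have h7 := (s k).2.2.2.1
      linarith
  have hinj : Function.Injective fun k => V (s k).1 := by
    intro k l hkl
    exact hsa.injective (congrArg RW.f (hVinj hkl))
  have hinf : {W ∈ 𝒱 | (⟨pr (s 0).1.f u, hz⟩ : Z) ∈ W}.Infinite :=
    Set.infinite_of_injective_forall_mem hinj fun k => ⟨hV1 _, hmem k⟩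
  exact hinf (h4 _)

end Pool.Agent.Y550.RP
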